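import Mathlib
import Pool.Agent.Q159.KeywordCore

/-!
# Isomorphisms between keyword substitution graphs (MP_53071c_co, Q1, disproof)

For `a = 10000` and `b = 01000` the graphs `G_n^{(a)}` and `G_n^{(b)}` are isomorphic for every
`n`, although `b` is not obtained from `a` by negations, seminegations and reversals.
-/

namespace Pool.Agent.Results.MP_53071c_co.KeywordGraphs

/-- The word `u` reads the keyword `a` at the positions `i, …, i+m` (positions are counted from
`0`). -/
def ReadsAt {m n : ℕ} (a : Fin (m + 1) → Bool) (i : ℕ) (u : Fin n → Bool) : Prop :=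
  ∀ (p : Fin n) (t : Fin (m + 1)), (p : ℕ) = i + (t : ℕ) → u p = a t

/-- Negate the letters in the positions `i, …, i+m`. -/
def negateBlock {n : ℕ} (m i : ℕ) (u : Fin n → Bool) : Fin n → Bool :=
  fun p => if i ≤ (p : ℕ) ∧ (p : ℕ) ≤ i + m then !(u p) else u p

/-- Negation of a keyword. -/
def neg {m : ℕ} (a : Fin (m + 1) → Bool) : Fin (m + 1) → Bool := fun t => !(a t)

/-- Seminegation: negate the letters in the even positions `2, 4, …` (positions counted from `1`,
so that these are the odd indices `t`). -/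
def semineg {m : ℕ} (a : Fin (m + 1) → Bool) : Fin (m + 1) → Bool :=
  fun t => if (t : ℕ) % 2 = 1 then !(a t) else a t

/-- Reversal. -/
def reversal {m : ℕ} (a : Fin (m + 1) → Bool) : Fin (m + 1) → Bool := fun t => a (Fin.rev t)

open Classical in
/-- The map `φ_i^{(a)}`. -/
noncomputable def phi {m n : ℕ} (a : Fin (m + 1) → Bool) (i : ℕ) (u : Fin n → Bool) :
    Fin n → Bool :=
  if ReadsAt a i u ∨ ReadsAt (neg a) i u then negateBlock m i u else u

theorem negateBlock_twice {n : ℕ} (m i : ℕ) (u : Fin n → Bool) :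
    negateBlock m i (negateBlock m i u) = u := by
  funext p
  unfold negateBlock
  split_ifs <;> simp

theorem reads_negateBlock {m n : ℕ} {a : Fin (m + 1) → Bool} {i : ℕ} {u : Fin n → Bool}
    (h : ReadsAt a i u ∨ ReadsAt (neg a) i u) :
    ReadsAt a i (negateBlock m i u) ∨ ReadsAt (neg a) i (negateBlock m i u) := by
  rcases h with h | h
  · right
    intro p t hp
    have ht := t.isLt
    unfold negateBlock neg
    rw [if_pos (by omega), h p t hp]
  · left
    intro p t hp
    have ht := t.isLt
    unfold negateBlock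
    rw [if_pos (by omega), h p t hp]
    unfold neg
    rw [Bool.not_not]

theorem phi_phi {m n : ℕ} (a : Fin (m + 1) → Bool) (i : ℕ) (u : Fin n → Bool) :
    phi a i (phi a i u) = u := by
  unfold phi
  by_cases h : ReadsAt a i u ∨ ReadsAt (neg a) i u
  · rw [if_pos h, if_pos (reads_negateBlock h), negateBlock_twice]
  · rw [if_neg h, if_neg h]

/-- The graph `G_n^{(a)}`: the words `u ≠ v` of length `n` are adjacent if `v = φ_i^{(a)}(u)` for
some block `i, …, i+m` of positions smaller than `n`. -/
noncomputable def G {m : ℕ} (a : Fin (m + 1) → Bool) (n : ℕ) : SimpleGraph (Fin n → Bool) where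
  Adj u v := u ≠ v ∧ ∃ i, i + m < n ∧ v = phi a i u
  symm := ⟨by
    rintro u v ⟨h, i, hi, rfl⟩
    exact ⟨h.symm, i, hi, (phi_phi a i u).symm⟩⟩
  loopless := ⟨fun u h => h.1 rfl⟩

/-- `b` is obtained from `a` by negation, seminegation or reversal. -/
def Step {m : ℕ} (a b : Fin (m + 1) → Bool) : Prop := b = neg a ∨ b = semineg a ∨ b = reversal a

/-! ### The difference transform -/

/-- Extension by `false`. -/
def ext {n : ℕ} (u : Fin n → Bool) : ℕ → Bool := fun p => if h : p < n then u ⟨p, h⟩ else false

/-- Restriction. -/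
def res (n : ℕ) (x : ℕ → Bool) : Fin n → Bool := fun p => x p

theorem ext_lt {n : ℕ} (u : Fin n → Bool) {p : ℕ} (h : p < n) : ext u p = u ⟨p, h⟩ := by
  unfold ext
  rw [dif_pos h]

theorem ext_ge {n : ℕ} (u : Fin n → Bool) {p : ℕ} (h : n ≤ p) : ext u p = false := by
  unfold ext
  rw [dif_neg (by omega)]

theorem res_ext {n : ℕ} (u : Fin n → Bool) : res n (ext u) = u := by
  funext p
  unfold res
  rw [ext_lt u p.isLt]

theorem ext_res {n : ℕ} (x : ℕ → Bool) (h : ∀ p, n ≤ p → x p = false) : ext (res n x) = x := by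
  funext p
  rcases Nat.lt_or_ge p n with h1 | h1
  · rw [ext_lt _ h1]
    rfl
  · rw [ext_ge _ h1, h p h1]

/-- The difference sequence. -/
def dif (x : ℕ → Bool) : ℕ → Bool := fun p => xor (x p) (x (p + 1))

theorem dif_tail {n : ℕ} (x : ℕ → Bool) (h : ∀ p, n ≤ p → x p = false) :
    ∀ p, n ≤ p → dif x p = false := by
  intro p hp
  unfold dif
  rw [h p hp, h (p + 1) (by omega)]
  rfl

/-- The difference transform of finite words. -/
def difF (n : ℕ) (u : Fin n → Bool) : Fin n → Bool := res n (dif (ext u))

theorem ext_difF {n : ℕ} (u : Fin n → Bool) : ext (difF n u) = dif (ext u) :=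
  ext_res _ (dif_tail _ (fun _ hp => ext_ge u hp))

theorem difF_injective (n : ℕ) : Function.Injective (difF n) := by
  intro u v h
  have h1 : dif (ext u) = dif (ext v) := by rw [← ext_difF, ← ext_difF, h]
  have h2 : ∀ k p, n ≤ p + k → ext u p = ext v p := by
    intro k
    induction k with
    | zero =>
      intro p hp
      rw [ext_ge u (by omega), ext_ge v (by omega)]
    | succ k ih =>
      intro p hp
      have h3 := ih (p + 1) (by omega)
      have h4 := congrFun h1 p
      unfold dif at h4
      rw [h3] at h4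
      exact Bool.xor_left_inj.mp h4
  rw [← res_ext u, ← res_ext v]
  congr 1
  funext p
  exact h2 n p (by omega)

/-- The composed bijection on finite words, and its injectivity. -/
noncomputable def thF (n : ℕ) (u : Fin n → Bool) : Fin n → Bool :=
  res n (Q159.KeywordCore.Th (n - 4) (ext u))

theorem ext_thF {n : ℕ} (u : Fin n → Bool) :
    ext (thF n u) = Q159.KeywordCore.Th (n - 4) (ext u) := by
  rcases Nat.lt_or_ge 4 n with hn | hn
  · apply ext_res
    intro p hp
    rw [Q159.KeywordCore.Th_tail _ _ _ (by omega), ext_ge u hp]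
  · unfold thF
    rw [show n - 4 = 0 by omega]
    show ext (res n (ext u)) = ext u
    rw [res_ext]

theorem thF_injective (n : ℕ) : Function.Injective (thF n) := by
  intro u v h
  have h1 : Q159.KeywordCore.Th (n - 4) (ext u) = Q159.KeywordCore.Th (n - 4) (ext v) := by
    rw [← ext_thF, ← ext_thF, h]
  have h2 := Q159.KeywordCore.Th_injective _ h1
  rw [← res_ext u, ← res_ext v, h2]

/-! ### The two keywords -/

/-- The keyword `10000`. -/
def kA : Fin (4 + 1) → Bool := ![true, false, false, false, false]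

/-- The keyword `01000`. -/
def kB : Fin (4 + 1) → Bool := ![false, true, false, false, false]

theorem readsAt_iff {n i : ℕ} (hi : i + 4 < n) (a : Fin (4 + 1) → Bool) (u : Fin n → Bool) :
    ReadsAt a i u ↔ ext u i = a 0 ∧ ext u (i + 1) = a 1 ∧ ext u (i + 2) = a 2 ∧
      ext u (i + 3) = a 3 ∧ ext u (i + 4) = a 4 := by
  constructor
  · intro h
    refine ⟨?_, ?_, ?_, ?_, ?_⟩
    · rw [ext_lt u (by omega)]; exact h ⟨i, by omega⟩ 0 rfl
    · rw [ext_lt u (by omega)]; exact h ⟨i + 1, by omega⟩ 1 rfl
    · rw [ext_lt u (by omega)]; exact h ⟨i + 2, by omega⟩ 2 rfl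
    · rw [ext_lt u (by omega)]; exact h ⟨i + 3, by omega⟩ 3 rfl
    · rw [ext_lt u (by omega)]; exact h ⟨i + 4, by omega⟩ 4 rfl
  · rintro ⟨h0, h1, h2, h3, h4⟩ p t hp
    have hpu : u p = ext u p := by rw [ext_lt u p.isLt]
    rw [hpu, hp]
    fin_cases t
    · exact h0
    · exact h1
    · exact h2
    · exact h3
    · exact h4

theorem reads_kA {n i : ℕ} (hi : i + 4 < n) (u : Fin n → Bool) :
    (ReadsAt kA i u ∨ ReadsAt (neg kA) i u) ↔ Q159.KeywordCore.act false (dif (ext u)) i := by
  rw [readsAt_iff hi, readsAt_iff hi]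
  unfold Q159.KeywordCore.act dif
  generalize ext u i = x0
  rw [show i + 1 + 1 = i + 2 by ring, show i + 2 + 1 = i + 3 by ring,
    show i + 3 + 1 = i + 4 by ring]
  generalize ext u (i + 1) = x1
  generalize ext u (i + 2) = x2
  generalize ext u (i + 3) = x3
  generalize ext u (i + 4) = x4
  cases x0 <;> cases x1 <;> cases x2 <;> cases x3 <;> cases x4 <;> simp [kA, neg]

theorem reads_kB {n i : ℕ} (hi : i + 4 < n) (u : Fin n → Bool) :
    (ReadsAt kB i u ∨ ReadsAt (neg kB) i u) ↔ Q159.KeywordCore.act true (dif (ext u)) i := by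
  rw [readsAt_iff hi, readsAt_iff hi]
  unfold Q159.KeywordCore.act dif
  generalize ext u i = x0
  rw [show i + 1 + 1 = i + 2 by ring, show i + 2 + 1 = i + 3 by ring,
    show i + 3 + 1 = i + 4 by ring]
  generalize ext u (i + 1) = x1
  generalize ext u (i + 2) = x2
  generalize ext u (i + 3) = x3
  generalize ext u (i + 4) = x4
  cases x0 <;> cases x1 <;> cases x2 <;> cases x3 <;> cases x4 <;> simp [kB, neg]

theorem dif_negateBlock {n i : ℕ} (hi : i + 4 < n) (u : Fin n → Bool) :
    dif (ext (negateBlock 4 i u)) = Q159.KeywordCore.flipN i (dif (ext u)) := by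
  have h : ∀ p, ext (negateBlock 4 i u) p = if i ≤ p ∧ p ≤ i + 4 then !(ext u p) else ext u p := by
    intro p
    rcases Nat.lt_or_ge p n with h1 | h1
    · rw [ext_lt _ h1, ext_lt _ h1]
      rfl
    · rw [ext_ge _ h1, ext_ge _ h1, if_neg (by omega)]
  funext p
  unfold dif Q159.KeywordCore.flipN
  rw [h p, h (p + 1)]
  by_cases c1 : i ≤ p ∧ p ≤ i + 4 <;> by_cases c2 : i ≤ p + 1 ∧ p + 1 ≤ i + 4
  · rw [if_pos c1, if_pos c2, if_neg (by omega)]
    simp
  · rw [if_pos c1, if_neg c2, if_pos (by omega)]
    simp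
  · rw [if_neg c1, if_pos c2, if_pos (by omega)]
    simp
  · rw [if_neg c1, if_neg c2, if_neg (by omega)]

theorem dif_phiA {n i : ℕ} (hi : i + 4 < n) (u : Fin n → Bool) :
    dif (ext (phi kA i u)) = Q159.KeywordCore.mv false i (dif (ext u)) := by
  unfold phi Q159.KeywordCore.mv
  by_cases h : ReadsAt kA i u ∨ ReadsAt (neg kA) i u
  · rw [if_pos h, if_pos ((reads_kA hi u).1 h), dif_negateBlock hi]
  · rw [if_neg h, if_neg (fun h2 => h ((reads_kA hi u).2 h2))]

theorem dif_phiB {n i : ℕ} (hi : i + 4 < n) (u : Fin n → Bool) :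
    dif (ext (phi kB i u)) = Q159.KeywordCore.mv true i (dif (ext u)) := by
  unfold phi Q159.KeywordCore.mv
  by_cases h : ReadsAt kB i u ∨ ReadsAt (neg kB) i u
  · rw [if_pos h, if_pos ((reads_kB hi u).1 h), dif_negateBlock hi]
  · rw [if_neg h, if_neg (fun h2 => h ((reads_kB hi u).2 h2))]

/-- The isomorphism. -/
theorem iso (n : ℕ) : Nonempty (G kA n ≃g G kB n) := by
  let e1 : (Fin n → Bool) ≃ (Fin n → Bool) :=
    Equiv.ofBijective (difF n) (Finite.injective_iff_bijective.mp (difF_injective n))
  let e2 : (Fin n → Bool) ≃ (Fin n → Bool) :=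
    Equiv.ofBijective (thF n) (Finite.injective_iff_bijective.mp (thF_injective n))
  let e : (Fin n → Bool) ≃ (Fin n → Bool) := (e1.trans e2).trans e1.symm
  have key : ∀ i, i + 4 < n → ∀ u, e (phi kA i u) = phi kB i (e u) := by
    intro i hi u
    have h0 : ∀ v, difF n (e v) = thF n (difF n v) := by
      intro v
      show e1 (e1.symm (e2 (e1 v))) = e2 (e1 v)
      exact e1.apply_symm_apply _
    apply difF_injective n
    rw [h0]
    have h1 : difF n (phi kA i u) = res n (Q159.KeywordCore.mv false i (ext (difF n u))) := by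
      unfold difF
      rw [dif_phiA hi, ext_res _ (dif_tail _ (fun _ hp => ext_ge u hp))]
    have h2 : difF n (phi kB i (e u)) =
        res n (Q159.KeywordCore.mv true i (ext (difF n (e u)))) := by
      unfold difF
      rw [dif_phiB hi, ext_res _ (dif_tail _ (fun _ hp => ext_ge (e u) hp))]
    rw [h2, h0, ext_thF, h1]
    have h3 : ext (res n (Q159.KeywordCore.mv false i (ext (difF n u)))) =
        Q159.KeywordCore.mv false i (ext (difF n u)) := by
      apply ext_res
      intro p hp
      unfold Q159.KeywordCore.mv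
      split_ifs
      · rw [Q159.KeywordCore.flipN_ne _ (by omega) (by omega), ext_ge _ hp]
      · exact ext_ge _ hp
    have h4 := Q159.KeywordCore.Th_mv (n - 4) i (ext (difF n u))
    rw [show decide (n - 4 ≤ i) = false by simp; omega] at h4
    unfold thF
    rw [h3, h4]
  refine ⟨⟨e, ?_⟩⟩
  intro u v
  constructor
  · rintro ⟨h1, i, hi, h2⟩
    refine ⟨fun h => h1 (by rw [h]), i, hi, ?_⟩
    have h2' : e v = phi kB i (e u) := h2
    rw [← key i hi u] at h2'
    exact e.injective h2'
  · rintro ⟨h1, i, hi, h2⟩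
    refine ⟨fun h => h1 (e.injective h), i, hi, ?_⟩
    show e v = phi kB i (e u)
    rw [h2, key i hi u]

theorem not_related : ¬ Relation.ReflTransGen Step kA kB := by
  intro h
  have key : ∀ c, Relation.ReflTransGen Step kA c → c 0 ≠ c 4 := by
    intro c hc
    induction hc with
    | refl => decide
    | tail _ hstep ih =>
      rcases hstep with rfl | rfl | rfl
      · intro h1
        apply ih
        unfold neg at h1
        simpa using h1
      · intro h1
        apply ih
        unfold semineg at h1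
        simpa using h1
      · intro h1
        apply ih
        unfold reversal at h1
        exact h1.symm
  exact key kB h rfl

/-- **MP_53071c_co, Q1 (disproof).** For `m = 4` there are keywords `a, b ∈ {0,1}^{m+1}` (namely
`a = 10000` and `b = 01000`) such that `G_n^{(a)} ≅ G_n^{(b)}` for all `n ≥ 1`, and `b` is not
obtained from `a` by a finite composition of negation, seminegation and reversal. -/
theorem result : ∃ a b : Fin (4 + 1) → Bool,
    a = ![true, false, false, false, false] ∧ b = ![false, true, false, false, false] ∧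
    (∀ n : ℕ, 1 ≤ n → Nonempty (G a n ≃g G b n)) ∧ ¬ Relation.ReflTransGen Step a b :=
  ⟨kA, kB, rfl, rfl, fun n _ => iso n, not_related⟩

end Pool.Agent.Results.MP_53071c_co.KeywordGraphs
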